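import Pool.Agent.T6.H69.AF.Final
import Pool.Agent.T6.H69.AF.Scale
set_option autoImplicit false

/-!
Beilinson's conjecture on regulators in weight `d = dim X + 1`, for `i = dim X`: on the varieties
`∏_{j < r} (z_j + κ_j + 1/z_j) = λ g(x) ∏_e L_e(x) ^ (w_e + 1)` of dimension `r + n` (for `r = 0` the
hypersurface `λ g ∏_e L_e ^ (w_e + 1) = 1`) over an arbitrary number field, where the `L_e` are
arbitrary different affine forms in `x_0, ..., x_n` (an arbitrary arrangement of hyperplanes) with
arbitrary multiplicities, and `g` is an arbitrary polynomial, there are unramified classes in Milnor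
K-theory with linearly independent regulators, one for each basis of the arrangement without broken
circuits and of internal activity zero, for all large and sufficiently divisible `λ`.
-/

namespace Pool.Agent.Results.MP_a09a03_nt.ArrangementsNumberField

open Pool.Agent.TH826.MK (KQ symb Unramified Torus)

open Pool.Agent.TH826.GA (cm)

open Pool.Agent.TH577.UA (UMod Ix)

open Pool.Agent.T6.H69.AF

open Polynomial in
theorem two_root_ne {K : Type*} [Field K] [CharZero K] {k : K} {N : ℕ} (hN0 : N ≠ 0)
    (h : (X ^ 2 + C k * X + 1 : K[X]) ∣ X ^ N - 1) : (2 : K) ^ 2 + k * 2 + 1 ≠ 0 := by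
  intro h0
  obtain ⟨q, hq⟩ := h
  have h1 := congrArg (eval 2) hq
  simp only [eval_sub, eval_mul, eval_add, eval_pow, eval_X, eval_C, eval_one] at h1
  rw [h0, zero_mul, sub_eq_zero] at h1
  have h2 : (2 : ℕ) ^ N = 1 := by exact_mod_cast h1
  exact absurd h2 (Nat.one_lt_pow hN0 (by norm_num)).ne'

section defs

variable {K : Type*} [Field K] {r n m : ℕ}

/-- The `κ_j` are integral and the `X² + κ_j X + 1` divide `X^N - 1` for some `N > 0`. -/
def Cyclotomic (κ : Fin r → K) : Prop :=
  (∀ j, IsIntegral ℤ (κ j)) ∧ ∃ N : ℕ, N ≠ 0 ∧ ∀ j,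
    (Polynomial.X ^ 2 + Polynomial.C (κ j) * Polynomial.X + 1 : Polynomial K) ∣
      Polynomial.X ^ N - 1

/-- At all complex points of the hypersurface `∏_j (z_j² + κ_j z_j + 1) = λ P ∏_j z_j` at which no
`z_j` vanishes and which do not lie over a singular point of `P = 0`, the gradient of the equation is
not `0`. In particular the open part `P ∏_j z_j ≠ 0` is smooth (for `r = 0` this is the whole
hypersurface `λ P = 1`). -/
def SmoothPoints (σ : K →+* ℂ) (P : MvPolynomial (Fin (n + 1)) K) (lam : K) (κ : Fin r → K) :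
    Prop :=
  ∀ p : Fin r ⊕ Fin (n + 1) → ℂ, (∀ j, p (Sum.inl j) ≠ 0) →
    (MvPolynomial.eval₂ σ (fun j => p (Sum.inr j)) P = 0 →
      ∃ i, MvPolynomial.eval₂ σ (fun j => p (Sum.inr j)) (MvPolynomial.pderiv i P) ≠ 0) →
    MvPolynomial.eval₂ σ p (feqn P lam κ) = 0 →
    ∃ i, MvPolynomial.eval₂ σ p (MvPolynomial.pderiv i (feqn P lam κ)) ≠ 0

/-- The images of the symbols of all bases `T` in the Milnor K-theory of all fields `L`, for all
homomorphisms from the coordinate ring of the open part to `L`, are unramified. -/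
def UnramifiedSymbols.{u, v} {K : Type u} [Field K] (g : MvPolynomial (Fin (n + 1)) K)
    (w : Fin (m + 1) → ℕ) (c : Fin (m + 1) → Fin (n + 1) → K) (a : Fin (m + 1) → K) (lam : K)
    (κ : Fin r → K) : Prop :=
  ∀ (L : Type v) [Field L] (f : FOpen (aP g w c a) lam κ →+* L)
    (T : Fin (n + 1) → Fin (m + 1)), (cm c T).det ≠ 0 →
      KQ.map (r + n + 1) f (symb (fent g w c a lam κ T)) ∈ Unramified L (r + n + 1)

/-- There are tori of dimension `r + n` in the complex points (over `σ`) of the open part, one for
each element of `Ix`, such that the determinant of the regulators of the symbols of the elements of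
`Ix` on the tori does not vanish. -/
def IndependentRegulators (σ : K →+* ℂ) (g : MvPolynomial (Fin (n + 1)) K)
    (w : Fin (m + 1) → ℕ) (c : Fin (m + 1) → Fin (n + 1) → K) (a : Fin (m + 1) → K) (lam : K)
    (κ : Fin r → K) : Prop :=
  ∃ Γ : Ix c a → Torus (FOpen (aP g w c a) lam κ) (r + n),
    (∀ T θ (x : K), (Γ T).e θ (fcst (aP g w c a) lam κ x) = σ x) ∧
    (Matrix.of fun T T' : Ix c a => (Γ T).reg (symb (fent g w c a lam κ T'.1))).det ≠ 0

end defs

/-- Let `σ` be a complex embedding of the number field `K`, let `r, n ≥ 0`, let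
`κ_0, ..., κ_{r-1}` be integers of `K` such that the polynomials `X² + κ_j X + 1` divide `X^N - 1`
for some `N > 0` (e.g. `κ_j ∈ {0, 1, -1}`, `N = 12`), let `L_e = ∑_j c_{e,j} x_j - a_e`,
`0 ≤ e ≤ m`, be affine forms in `x_0, ..., x_n` with coefficients in `K`, such that no form is a
multiple of another one and `n + 1` of the linear parts are linearly independent, let `w_e ≥ 0` be
integers and let `g ≠ 0` be a polynomial in `x_0, ..., x_n` with coefficients in `K`. There are an
integer `M > 0`, with `M = 1` if the coefficients are algebraic integers and the nonzero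
determinants of `n + 1` of the linear parts are units, and a constant `C` such that for all `λ` in
`K` with `λ / M` integral and `|σ λ| ≥ C` the following holds for the hypersurface
`∏_j (z_j² + κ_j z_j + 1) = Φ ∏_j z_j`, `Φ = λ g ∏_e L_e ^ (w_e + 1)`, in the affine space with the
coordinates `z_0, ..., z_{r-1}, x_0, ..., x_n`:

if `r ≥ 1`, or if `r = 0`, `n ≥ 1`, `g = 1` and `w_e = 0` for a nonconstant form, its coordinate ring
is a domain, in which `Φ ∏_j z_j ≠ 0`; the hypersurface is smooth at all complex points over `σ` with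
`z_j ≠ 0` that do not lie over singular points of `Φ = 0`; for all bases `T = (T_0, ..., T_n)` (the
linear parts of the forms `T_i` are linearly independent) the symbol
`{z_0, ..., z_{r-1}, u_0, ..., u_n}`, `u_i = k_i L_{T_i} / L_{h_i}`, where `h_i` is the largest index
such that `T` with `T_i` replaced by `h_i` is a basis and `k_i` is the quotient of the determinants
of this basis and of `T`, on the open part `Φ ∏_j z_j ≠ 0` has unramified images in the Milnor
K-theory of all fields `L` with a homomorphism from the coordinate ring of the open part to `L`; and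
there are tori `Γ_T` of dimension `r + n` in the complex points (over `σ`) of the open part such that
the determinant of the regulators of the symbols of `T'` on the tori `Γ_T` does not vanish; here `T`
and `T'` run through the set `Ix` of all bases `T_0 < ... < T_n` such that every `T_i` can be
replaced by a later form, and every other form which vanishes at the vertex of `T` can replace a
later form `T_i`. -/
theorem result.{u, v} (r n m : ℕ) (K : Type u) [Field K] [NumberField K] (σ : K →+* ℂ)
    (κ : Fin r → K) (hκ : Cyclotomic κ) (c : Fin (m + 1) → Fin (n + 1) → K)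
    (a : Fin (m + 1) → K) (hD : Different c a)
    (hR : ∃ T : Fin (n + 1) → Fin (m + 1), (cm c T).det ≠ 0) (w : Fin (m + 1) → ℕ)
    (g : MvPolynomial (Fin (n + 1)) K) (hg : g ≠ 0) :
    ∃ M : ℕ, M ≠ 0 ∧ (UMod c a → (∀ k, IsIntegral ℤ (g.coeff k)) → M = 1) ∧ ∃ C : ℝ,
      ∀ lam : K, IsIntegral ℤ (lam / M) → C ≤ ‖σ lam‖ →
        ((1 ≤ r ∨ 1 ≤ n ∧ g = 1 ∧ ∃ e, w e = 0 ∧ ∃ j, c e j ≠ 0) →
          IsDomain (FRing (aP g w c a) lam κ) ∧ fdel (aP g w c a) lam κ ≠ 0) ∧
        SmoothPoints σ (aP g w c a) lam κ ∧ UnramifiedSymbols.{u, v} g w c a lam κ ∧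
        IndependentRegulators σ g w c a lam κ := by
  obtain ⟨hκ1, N, hN0, hN⟩ := hκ
  obtain ⟨M, hM0, hM1, D, hA, hM⟩ := exists_scaling c a g w
  obtain ⟨c1, hc1, h⟩ := exists_tori (g := g) (w := w) σ κ hD hg
  obtain ⟨c2, -, h2⟩ := exists_smooth σ (aP g w c a) κ
  refine ⟨M, hM0, hM1, max c1 c2, fun lam hlam hl => ?_⟩
  have hl1 : c1 ≤ ‖σ lam‖ := (le_max_left _ _).trans hl
  have hl0 : lam ≠ 0 := by
    intro h0
    rw [h0, map_zero, norm_zero] at hl1
    linarith
  refine ⟨fun hr => ?_, h2 lam ((le_max_right _ _).trans hl),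
    fun L _ f T hT => symb_mem_unramified f hA (hM lam hlam) hκ1 hN0 hN hT, h lam hl1⟩
  rcases r with _ | s
  · rcases hr with hr | ⟨hn, hg1, e, he, he'⟩
    · exact absurd hr (by omega)
    · obtain ⟨d, rfl⟩ : ∃ d, n = d + 1 := ⟨n - 1, by omega⟩
      subst hg1
      haveI := isDomain_zero hR hD he' he hl0 κ
      exact ⟨this, by rw [fdel_zero]; exact one_ne_zero⟩
  · exact ⟨isDomain_FRing (aP_ne_C hR hD hg) hl0 two_ne_zero fun j => two_root_ne hN0 (hN j),
      fdel_ne_zero (aP_ne_C hR hD hg) hl0⟩

end Pool.Agent.Results.MP_a09a03_nt.ArrangementsNumberField
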