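import Pool.Agent.T6.H30.RV.Fin
import Pool.Agent.T6.H30.RV.Cover
set_option autoImplicit false

/-!
Beilinson's conjecture on regulators in weight `d = dim X + 1`, for `i = dim X`: over an arbitrary
affine variety `W` of dimension `n + 1` (a complete intersection in an affine space) over a number
field we consider the varieties
`X : ∏_l (z_l + κ_l + 1 / z_l) = λ g ∏_j ∏_i h_{j,i} ^ (w_{j,i} + 1)` of dimension `s + n`; for `s = 0`
they are the hypersurfaces `λ g ∏_j ∏_i h_{j,i} ^ (w_{j,i} + 1) = 1` of `W`, for `n = 0`, `s = 1` the
double covers of an arbitrary curve `W`. They carry symbols in `K_{s+n+1}` that are unramified at all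
discrete valuations, with linearly independent regulators for all large integral `λ`.

The only global condition is the behaviour at infinity of the functions `h_{j,i}`
(`Pool.Agent.T6.H30.RV.Sys.Adm`): `W` is a tower of relative curves, and the functions
`h_{j,0}, h_{j,1}, ...` of the level `j` have the same poles and, up to roots of unity, the same
leading coefficients. By `Pool.Agent.T6.H30.RV.adm_of_cover` this holds e.g. for the functions
`h_{j,i} = x_j - φ_{j,i}(x_{j+1}, ..., x_n)` on every integral cover `W` of the affine space, in
particular on products of curves of arbitrary genus.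
-/

namespace Pool.Agent.Results.MP_a09a03_nt.BaseVarieties

open Pool.Agent.TH826.MK (KQ symb Unramified Torus)

open Pool.Agent.T6.H30.RV

section defs

variable {s n c : ℕ}

/-- The `κ_l` are integral and the `X² + κ_l X + 1` divide `X^N - 1` for some `N > 0`. -/
def Cyclotomic {K : Type*} [Field K] (κ : Fin s → K) : Prop :=
  (∀ l, IsIntegral ℤ (κ l)) ∧ ∃ N : ℕ, N ≠ 0 ∧ ∀ l,
    (Polynomial.X ^ 2 + Polynomial.C (κ l) * Polynomial.X + 1 : Polynomial K) ∣
      Polynomial.X ^ N - 1

/-- For all fields `L` and all homomorphisms from the coordinate ring to `L` (e.g. for the function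
fields of all components, if the variety is reduced), the images of all symbols
`{h_{0,k_0+1} / h_{0,0}, z_0, ..., z_(s-1), h_{1,k_1+1} / h_{1,0}, ..., h_{n,k_n+1} / h_{n,0}}` are
unramified at all discrete valuations of `L`. -/
def UnramifiedSymbols.{u, v} {K : Type u} [Field K] (S : Sys K c n) (lam : K)
    (κ : Fin s → K) : Prop :=
  ∀ (L : Type v) [Field L] (f : S.Ring lam κ →+* L) (k : ∀ j, Fin (S.r j)),
    KQ.map (s + n + 1) f (symb (S.ent lam κ k)) ∈ Unramified L (s + n + 1)

/-- For every `T = (T_0, ..., T_n)` such that the functions `h_{0,T_0+1}, ..., h_{n,T_n+1}` have a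
transversal common zero, at which `g` and the other `h_{j,i}` do not vanish, there is a torus of
dimension `s + n` in the complex points (over `σ`) of the variety, such that the determinant of the
regulators of the symbols with these indices `T` on these tori does not vanish. -/
def IndependentRegulators {K : Type*} [Field K] (σ : K →+* ℂ) (S : Sys K c n) (lam : K)
    (κ : Fin s → K) : Prop :=
  ∃ Γ : S.Idx σ → Torus (S.Ring lam κ) (s + n),
    (∀ T θ a, (Γ T).e θ (S.cst lam κ a) = σ a) ∧ (S.regs σ lam κ Γ).det ≠ 0

end defs

/-- Let `σ` be a complex embedding of the number field `K`, let `κ_0, ..., κ_(s-1)` be integers of `K`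
such that the polynomials `X² + κ_l X + 1` divide `X^N - 1` (e.g. `κ_l ∈ {0, 1, -1}`, `N = 12`). Let
`W` be given by `c` equations `G_l = 0` in `c + n + 1` variables of levels `0, ..., n`, and let
`h_{j,0}, ..., h_{j,r_j}`, `0 ≤ j ≤ n`, and `g` be functions on `W` that are admissible: they are
integral over the ring generated by the algebraic integers of `K` and all variables, and, if `R_j` is
the ring generated by the algebraic integers of `K` and the variables of levels `> j`, the variables
of level `j` are integral over `R_j[h_{j,0}]`, and for some `N > 0` the function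
`h_{j,i} ^ N - h_{j,0} ^ N` is of smaller order than `h_{j,0} ^ N` over `R_j`.

There is a constant `C` such that for all integers `λ` of `K` with `|σ λ| ≥ C` the following holds
for the open part `g ∏ h_{j,i} ∏ z_l ≠ 0` of the variety
`∏_l (z_l ^ 2 + κ_l z_l + 1) = λ g ∏_j ∏_i h_{j,i} ^ (w_{j,i} + 1) ∏_l z_l` over `W`: for
all `k = (k_0, ..., k_n)`, `0 ≤ k_j < r_j`, the symbol
`{h_{0,k_0+1} / h_{0,0}, z_0, ..., z_(s-1), h_{1,k_1+1} / h_{1,0}, ..., h_{n,k_n+1} / h_{n,0}}` is
unramified at all discrete valuations of all fields to which the coordinate ring is mapped, and the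
regulators of the symbols that belong to the transversal common zeros of the functions
`h_{0,k_0+1}, ..., h_{n,k_n+1}` are linearly independent: the determinant of the regulators on tori in
the complex points over `σ` does not vanish. -/
theorem result.{u, v} (s n c : ℕ) (K : Type u) [Field K] [NumberField K] (σ : K →+* ℂ)
    (κ : Fin s → K) (hκ : Cyclotomic κ) (S : Sys K c n) (hS : S.Adm) :
    ∃ C : ℝ, ∀ lam : K, IsIntegral ℤ lam → C ≤ ‖σ lam‖ →
      UnramifiedSymbols.{u, v} S lam κ ∧ IndependentRegulators σ S lam κ := by
  obtain ⟨hκ1, N, hN0, hN⟩ := hκ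
  exact main S hS κ hκ1 hN0 hN σ

end Pool.Agent.Results.MP_a09a03_nt.BaseVarieties
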