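import Pool.Agent.T6.H7.SX.Sext
set_option autoImplicit false

/-!
Beilinson's conjecture on regulators for `K_2` of elliptic curves (`d = 2`, `i = 1`) over totally
real sextic fields: a family of elliptic curves `E_n` over totally real fields `K_n` of degree `6`
(`n` a large integer) with the predicted number, six, of classes in the integral part of
`K_2 ⊗ ℚ` with regulators linearly independent over the real numbers.
-/

namespace Pool.Agent.Results.MP_a09a03_nt.SexticFields

open Pool.Agent.W367.KT Pool.Agent.T6.H7.SX NumberField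

/-- Let `P_n = X ^ 4 (X - n) ^ 2 - (n X - 1) ^ 2 - 4 X ^ 3` (`PR n`), and if `P_n` is irreducible
let `s` be the root of `P_n` in `K_n = ℚ[X]/(P_n)`, `s₂ = (s ^ 3 - n s ^ 2 - n s + 1) / (2 s)`,
`s₃ = -1 - s - s₂` and `b = - s s₂ s₃` (`bPar n s`). The polynomial `P_n` is irreducible if `n` is
not divisible by `3`. There is an `N` such that for all integers `n ≥ N` for which `P_n` is
irreducible the field `K_n` is totally real of degree `6` over `ℚ`, the curve
`E : Y ^ 2 + (1 - b) X Y - b Y = X ^ 3 - b X ^ 2` (`tate b`) over `K_n` is an elliptic curve, and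
there are six classes in `K_2 (K_n(E)) ⊗ ℚ` with trivial tame symbols at all discrete valuations of
the function field `K_n(E)`, linearly independent over `ℚ`, and six closed paths in the complex
points of `E`, one over each of the six embeddings of `K_n`, such that the matrix of the regulator
integrals of the classes along the paths is invertible (`FullRank (tate b) 6`). -/
theorem result :
    (∀ n : ℤ, ¬ (3 : ℤ) ∣ n → Irreducible (PR (n : ℚ))) ∧
    ∃ N : ℤ, ∀ n : ℤ, N ≤ n → ∀ [Fact (Irreducible (PR (n : ℚ)))],
      Module.finrank ℚ (AdjoinRoot (PR (n : ℚ))) = 6 ∧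
      IsTotallyReal (AdjoinRoot (PR (n : ℚ))) ∧
      (tate (bPar (n : AdjoinRoot (PR (n : ℚ))) (AdjoinRoot.root (PR (n : ℚ))))).IsElliptic ∧
      FullRank (tate (bPar (n : AdjoinRoot (PR (n : ℚ))) (AdjoinRoot.root (PR (n : ℚ))))) 6 := by
  refine ⟨irr_Q, ⌈Real.exp 408⌉, fun n hn _ => ?_⟩
  have hn' : Real.exp 408 ≤ n := (Int.le_ceil _).trans (by exact_mod_cast hn)
  exact ⟨finrank_Kn n, (indep_Kn n hn').1, elliptic_Kn n hn', (indep_Kn n hn').2⟩

end Pool.Agent.Results.MP_a09a03_nt.SexticFields
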