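import Pool.Agent.T6.H24.TM.Final
import Pool.Agent.T6.H24.TM.Cyc
import Pool.Agent.T6.H53.CT.Scale
set_option autoImplicit false

/-!
Beilinson's conjecture on regulators in weight `d = dim X + 1`, for `i = dim X`: on the varieties
`P(z) = λ g(x) ∏_j ∏_i (x_j - φ_{j,i}(x_{j+1}, ..., x_n)) z^w` of dimension `s + n + 1` over an
arbitrary number field, where `P` is a product of polynomials in `z_1, ..., z_{s+1}` with affinely
independent exponents and roots of unity as coefficients, and of cyclotomic forms in two monomials,
and `w` is in the interior of the Newton polytope of `P`.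
-/

namespace Pool.Agent.Results.MP_a09a03_nt.TemperedFibrations

open Pool.Agent.TH826.MK (KQ symb Unramified Torus)

open Pool.Agent.Y797.TW (Tower)

open Pool.Agent.T6.H53.CT (exists_scaling)

open Pool.Agent.T6.H24.TM

section defs

variable {K : Type*} [Field K] {S n : ℕ}

/-- The polynomials `P` of the fibres: all products of polynomials `∑_i ε_i z^(M_i)`, where the
exponents `M_i` are affinely independent and the coefficients `ε_i` are roots of unity, and of
polynomials `∑_i c_i z^((d - i) A + i B)`, `A ≠ B`, where `∑_i c_i X^i` is a monic polynomial of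
degree `d` which divides `X^N - 1` for some `N > 0`. -/
inductive FibrePoly : MvPolynomial (Fin S) K → Prop
  | simplex {k : ℕ} (M : Fin k → Fin S →₀ ℕ) (ε : Fin k → K) (N : ℕ) (hN : N ≠ 0)
      (hε : ∀ i, ε i ^ N = 1)
      (hM : AffineIndependent ℚ fun (i : Fin k) (l : Fin S) => (M i l : ℚ)) :
      FibrePoly (∑ i, MvPolynomial.monomial (M i) (ε i))
  | cyclotomic (C : Polynomial K) (hC : C.Monic) (N : ℕ) (hN : N ≠ 0)
      (hd : C ∣ Polynomial.X ^ N - 1) (A B : Fin S →₀ ℕ) (hAB : A ≠ B) :
      FibrePoly (binform C A B)
  | mul {P Q : MvPolynomial (Fin S) K} (hP : FibrePoly P) (hQ : FibrePoly Q) :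
      FibrePoly (P * Q)

theorem FibrePoly.tempered.{u, v} {K : Type u} [Field K] {P : MvPolynomial (Fin S) K}
    (h : FibrePoly P) : Tempered.{u, v} P := by
  induction h with
  | simplex M ε N hN hε hM => exact tempered_simplex M ε hN hε hM
  | cyclotomic C hC N hN hd A B hAB => exact tempered_binform hC hN hd hAB
  | mul hP hQ ihP ihQ => exact ihP.mul ihQ

/-- At all complex points (over `σ`) of the open part `Φ ∏_j z_j ≠ 0` of the hypersurface
`P(z) = Φ(x) z^w` the gradient of the equation is not `0`. -/
def SmoothOpen (σ : K →+* ℂ) (A : Tower K n) (lam : K) (P : MvPolynomial (Fin S) K)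
    (w : Fin S → ℕ) : Prop :=
  ∀ p : Fin (n + 1) ⊕ Fin S → ℂ, FPt σ A lam P w p →
    ∃ i, MvPolynomial.eval₂ σ p (MvPolynomial.pderiv i (feqn A lam P w)) ≠ 0

/-- The symbols have unramified images in the Milnor K-theory of all fields `L` with a homomorphism
from the coordinate ring of the open part to `L` (for example of its function field). -/
def UnramifiedSymbols.{u, v} {K : Type u} [Field K] (A : Tower K n) (lam : K)
    (P : MvPolynomial (Fin S) K) (w : Fin S → ℕ) : Prop :=
  ∀ (L : Type v) [Field L] (f : FOpen A lam P w →+* L) (k : ∀ j, Fin (A.r j)),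
    KQ.map (S + (n + 1)) f (symb (fent A lam P w k)) ∈ Unramified L (S + (n + 1))

/-- There are `∏_j r_j` tori of dimension `S + n` in the complex points (over `σ`) of the open part,
such that the determinant of the regulators of the `∏_j r_j` symbols on the tori does not
vanish. -/
def IndependentRegulators (σ : K →+* ℂ) (A : Tower K n) (lam : K) (P : MvPolynomial (Fin S) K)
    (w : Fin S → ℕ) : Prop :=
  ∃ Γ : (∀ j, Fin (A.r j)) → Torus (FOpen A lam P w) (S + n),
    (∀ t θ (x : K), (Γ t).e θ (fcst A lam P w x) = σ x) ∧
    (Matrix.of fun t k : (∀ j, Fin (A.r j)) => (Γ t).reg (symb (fent A lam P w k))).det ≠ 0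

end defs

theorem isDomain_FOpen {K : Type*} [Field K] {S n : ℕ} {A : Tower K n} {lam : K}
    {P : MvPolynomial (Fin S) K} {w : Fin S → ℕ} [IsDomain (FRing A lam P w)]
    (h : fdel A lam P w ≠ 0) : IsDomain (FOpen A lam P w) := by
  have h1 : IsDomain (Localization (Submonoid.powers (fdel A lam P w))) :=
    IsLocalization.isDomain_localization (powers_le_nonZeroDivisors_of_noZeroDivisors h)
  exact (Localization.awayEquivAdjoin (fdel A lam P w)).symm.toMulEquiv.isDomain

/-- Let `σ` be a complex embedding of the number field `K`, let `s, n ≥ 0`, let `P` be a product of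
polynomials in the variables `z_1, ..., z_{s+1}`, each of which is of the form `∑_i ε_i z^(M_i)` with
affinely independent exponents `M_i` and roots of unity `ε_i` in `K`, or of the form
`∑_i c_i z^((d - i) A + i B)`, where `∑_i c_i X^i` is a monic divisor of `X^N - 1` in `K[X]` and
`A ≠ B`; and let `z^w` be a monomial whose exponent `w` is in the interior of the Newton polytope of
`P`.

For `0 ≤ j ≤ n` let `r_j ≥ 0`, and let `φ_{j,0}, ..., φ_{j,r_j}` be different polynomials in the
variables `x_{j+1}, ..., x_n` with coefficients in `K`, and let `g ≠ 0` be a polynomial in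
`x_0, ..., x_n` with coefficients in `K`. There are an integer `M > 0`, with `M = 1` if the
coefficients of all `φ_{j,i}` and of `g` are algebraic integers, and a constant `C` such that for all
`λ` in `K` with `λ / M` integral and `|σ λ| ≥ C` the following holds for the hypersurface
`P(z) = Φ(x) z^w`, `Φ = λ g ∏_j ∏_i (x_j - φ_{j,i})`, in the affine space with the coordinates
`x_0, ..., x_n, z_1, ..., z_{s+1}`:

if no `z_j` divides `P` and some `w_j` is equal to `1`, the coordinate rings of the hypersurface and
of its open part `Φ ∏_j z_j ≠ 0` are domains; the open part is smooth at all complex points over `σ`;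
for all `k = (k_0, ..., k_n)`, `0 ≤ k_j < r_j`, the symbol
`{z_1, ..., z_{s+1}, (x_0 - φ_{0,k_0+1})/(x_0 - φ_{0,0}), ..., (x_n - φ_{n,k_n+1})/(x_n - φ_{n,0})}`
on the open part has unramified images (at all discrete valuations) in the Milnor K-theory of all
fields `L` with a homomorphism from the coordinate ring of the open part to `L`; and there are
`∏_j r_j` tori of dimension `s + n + 1` in the complex points (over `σ`) of the open part such that
the determinant of the regulators of these `∏_j r_j` symbols on the tori does not vanish. -/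
theorem result.{u, v} (s n : ℕ) (K : Type u) [Field K] [NumberField K] (σ : K →+* ℂ)
    (P : MvPolynomial (Fin (s + 1)) K) (hP : FibrePoly P) (w : Fin (s + 1) → ℕ)
    (hw : Interior P w) (A : Tower K n) (hG : A.Graphs) :
    ∃ M : ℕ, M ≠ 0 ∧ (A.Integral → M = 1) ∧ ∃ C : ℝ, ∀ lam : K, IsIntegral ℤ (lam / M) →
      C ≤ ‖σ lam‖ →
        ((∀ j, ¬ MvPolynomial.X j ∣ P) → (∃ j, w j = 1) →
          IsDomain (FRing A lam P w) ∧ IsDomain (FOpen A lam P w)) ∧
        SmoothOpen σ A lam P w ∧ UnramifiedSymbols.{u, v} A lam P w ∧
        IndependentRegulators σ A lam P w := by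
  obtain ⟨M, hM0, hM1, D, hD, hM⟩ := exists_scaling A hG
  obtain ⟨c1, hc1, h⟩ := exists_tori (P := P) (w := w) σ hw hG
  obtain ⟨c2, -, h2⟩ := exists_smooth σ A P w
  refine ⟨M, hM0, hM1, max c1 c2, fun lam hlam hl => ?_⟩
  have hl1 : c1 ≤ ‖σ lam‖ := (le_max_left _ _).trans hl
  have hl0 : lam ≠ 0 := by
    intro h0
    rw [h0, map_zero, norm_zero] at hl1
    linarith
  have hP0 : P ≠ 0 := by
    intro h0
    obtain ⟨m, hm, -⟩ := hw (Pi.single 0 1) (by
      intro h1
      have := congrFun h1 0
      rw [Pi.single_eq_same] at this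
      exact one_ne_zero this)
    rw [h0, MvPolynomial.support_zero] at hm
    exact absurd hm (Finset.notMem_empty m)
  refine ⟨fun hX hj => ?_, h2 lam ((le_max_right _ _).trans hl), ?_, h lam hl1⟩
  · obtain ⟨j, hj⟩ := hj
    have h3 := isDomain_FRing (A := A) hG hl0 hX hj
    exact ⟨h3, isDomain_FOpen (fdel_ne_zero hG hl0 hP0)⟩
  · intro L _ f k
    exact symb_mem_unramified f hG hD (hM lam hlam) hP.tempered hw hP0 k

end Pool.Agent.Results.MP_a09a03_nt.TemperedFibrations
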